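import Pool.Agent.Helper72.BH.All

/-!
Random one-relator groups: all first-order sentences, many generators (MP_d4e3d0_lc).
-/

namespace Pool.Agent.Results.MP_d4e3d0_lc.AllSentences

open FirstOrder Filter Topology
open Pool.Agent.Helper32.OR (grpLang)

/-- The quantifier rank, by recursion on the formula: `0` for `⊥`, for equations and for relations,
the maximum of the two ranks for an implication, one more for `∀`. -/
noncomputable def qr {α : Type} {k : ℕ} (φ : grpLang.BoundedFormula α k) : ℕ :=
  φ.rec (motive := fun _ _ => ℕ) 0 (fun _ _ => 0) (fun _ _ => 0) (fun _ _ m m' => max m m')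
    (fun _ m => m + 1)

/-- The one-relator group with relator `r`. -/
abbrev OneRel {n : ℕ} (r : FreeGroup (Fin n)) : Type :=
  PresentedGroup ({r} : Set (FreeGroup (Fin n)))

/-- `P r` holds asymptotically almost surely, where `r` runs through the reduced words of length at
most `t` in `n` letters, each counted once. -/
def AAS (n : ℕ) (P : FreeGroup (Fin n) → Prop) : Prop :=
  Tendsto (fun t : ℕ => (Set.ncard {r : FreeGroup (Fin n) | r.norm ≤ t ∧ P r} : ℝ) /
    (Set.ncard {r : FreeGroup (Fin n) | r.norm ≤ t} : ℝ)) atTop (𝓝 1)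

/-- The proportion of the reduced relators of length at most `t` for which the group satisfies
`φ`. -/
noncomputable def prob (n t : ℕ) (φ : grpLang.Sentence) : ℝ :=
  (Set.ncard {r : FreeGroup (Fin n) | r.norm ≤ t ∧ OneRel r ⊨ φ} : ℝ) /
    (Set.ncard {r : FreeGroup (Fin n) | r.norm ≤ t} : ℝ)

theorem qr_eq {α : Type} {k : ℕ} (φ : grpLang.BoundedFormula α k) :
    qr φ = Pool.Agent.Helper32.OR.qr φ := by
  induction φ with
  | falsum => rfl
  | equal t₁ t₂ => rfl
  | rel R ts => rfl
  | imp φ ψ h1 h2 =>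
    show max (qr φ) (qr ψ) = max (Pool.Agent.Helper32.OR.qr φ) (Pool.Agent.Helper32.OR.qr ψ)
    rw [h1, h2]
  | all φ h =>
    show qr φ + 1 = Pool.Agent.Helper32.OR.qr φ + 1
    rw [h]

/-- (1) For each first-order sentence `φ` there is `N` such that for all `n ≥ N` the proportion of the
one-relator groups with `n` generators that satisfy `φ` tends to `1` if the free group of countable rank
satisfies `φ`, and to `0` otherwise. (2) For each `q` there is `N` such that for `n ≥ N` a.a.s. the one-relator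
group satisfies the same sentences of quantifier rank at most `q` as the free group of countable rank,
and so does the free group of rank `m` for all `m ≥ N`. -/
theorem result :
    (∀ φ : grpLang.Sentence, ∃ N : ℕ, ∀ n, N ≤ n →
      (FreeGroup ℕ ⊨ φ → Tendsto (fun t => prob n t φ) atTop (𝓝 1)) ∧
      (¬ (FreeGroup ℕ ⊨ φ) → Tendsto (fun t => prob n t φ) atTop (𝓝 0))) ∧
    (∀ q : ℕ, ∃ N : ℕ,
      (∀ n, N ≤ n → AAS n (fun r => ∀ φ : grpLang.Sentence, qr φ ≤ q →
        (OneRel r ⊨ φ ↔ FreeGroup ℕ ⊨ φ))) ∧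
      ∀ m, N ≤ m → ∀ φ : grpLang.Sentence, qr φ ≤ q →
        (FreeGroup (Fin m) ⊨ φ ↔ FreeGroup ℕ ⊨ φ)) := by
  refine ⟨Pool.Agent.Helper72.BH.all_limits, fun q => ?_⟩
  obtain ⟨N, h1, h2⟩ := Pool.Agent.Helper72.BH.all_omega q
  refine ⟨N, fun n hn => ?_, fun m hm φ hφ => h2 m hm φ (by rw [← qr_eq]; exact hφ)⟩
  refine Pool.Agent.Helper32.OR.aas_mono (h1 n hn) (fun _ hr φ hφ => hr φ ?_)
  rw [← qr_eq]
  exact hφ

end Pool.Agent.Results.MP_d4e3d0_lc.AllSentences
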