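import Pool.Agent.Helper32.OR.Fin1

/-!
Random one-relator groups and the first-order sentences whose atomic subformulas contain at most
two variables (MP_d4e3d0_lc).
-/

namespace Pool.Agent.Results.MP_d4e3d0_lc.BinaryFragment

open FirstOrder Filter Topology
open Pool.Agent.Helper32.OR (grpLang)

/-- All equations of the formula contain at most two variables (defined by recursion on the
formula). -/
def TwoVar {k : ℕ} (φ : grpLang.BoundedFormula Empty k) : Prop :=
  φ.rec (motive := fun _ _ => Prop) True (fun t₁ t₂ => (t₁.varFinset ∪ t₂.varFinset).card ≤ 2)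
    (fun _ _ => True) (fun _ _ p q => p ∧ q) (fun _ p => p)

/-- The one-relator group with relator `r`. -/
abbrev OneRel {n : ℕ} (r : FreeGroup (Fin n)) : Type :=
  PresentedGroup ({r} : Set (FreeGroup (Fin n)))

/-- `P r` holds asymptotically almost surely, where `r` runs through the reduced words of length at
most `t` in `n` letters, each counted once. -/
def AAS (n : ℕ) (P : FreeGroup (Fin n) → Prop) : Prop :=
  Tendsto (fun t : ℕ => (Set.ncard {r : FreeGroup (Fin n) | r.norm ≤ t ∧ P r} : ℝ) /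
    (Set.ncard {r : FreeGroup (Fin n) | r.norm ≤ t} : ℝ)) atTop (𝓝 1)

/-- The proportion of the reduced relators of length at most `t` for which the group satisfies
`φ`. -/
noncomputable def prob (n t : ℕ) (φ : grpLang.Sentence) : ℝ :=
  (Set.ncard {r : FreeGroup (Fin n) | r.norm ≤ t ∧ OneRel r ⊨ φ} : ℝ) /
    (Set.ncard {r : FreeGroup (Fin n) | r.norm ≤ t} : ℝ)

theorem twoVar_iff {k : ℕ} (φ : grpLang.BoundedFormula Empty k) :
    TwoVar φ ↔ Pool.Agent.Helper32.OR.TwoVar φ := by
  induction φ with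
  | falsum => exact Iff.rfl
  | equal t₁ t₂ => exact Iff.rfl
  | rel R ts => exact Iff.rfl
  | imp φ ψ h1 h2 => exact and_congr h1 h2
  | all φ h => exact h

/-- (1) For `n ≥ 3`, a.a.s. the one-relator group satisfies the same sentences of the fragment as
`F₂`, simultaneously for all sentences. (2) The proportions tend to `1` or `0`. (3) A.a.s. there is a
bijection of the group with `F₂` that preserves all relations in two variables. (4) The choice of
the rank of the free group does not matter. -/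
theorem result :
    (∀ n : ℕ, 3 ≤ n → AAS n (fun r => ∀ φ : grpLang.Sentence, TwoVar φ →
      (OneRel r ⊨ φ ↔ FreeGroup (Fin 2) ⊨ φ))) ∧
    (∀ n : ℕ, 3 ≤ n → ∀ φ : grpLang.Sentence, TwoVar φ →
      (FreeGroup (Fin 2) ⊨ φ → Tendsto (fun t => prob n t φ) atTop (𝓝 1)) ∧
      (¬ (FreeGroup (Fin 2) ⊨ φ) → Tendsto (fun t => prob n t φ) atTop (𝓝 0))) ∧
    (∀ n : ℕ, 3 ≤ n → AAS n (fun r => ∃ e : OneRel r ≃ FreeGroup (Fin 2),
      ∀ (a b : OneRel r) (w : FreeGroup (Fin 2)),
        FreeGroup.lift ![a, b] w = 1 ↔ FreeGroup.lift ![e a, e b] w = 1)) ∧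
    (∀ m : ℕ, 2 ≤ m → ∀ φ : grpLang.Sentence, TwoVar φ →
      (FreeGroup (Fin m) ⊨ φ ↔ FreeGroup (Fin 2) ⊨ φ)) := by
  refine ⟨fun n hn => Pool.Agent.Helper32.OR.aas_mono
      (Pool.Agent.Helper32.OR.binary_fragment n hn)
      (fun _ h φ hφ => h φ ((twoVar_iff φ).1 hφ)),
    fun n hn φ hφ => Pool.Agent.Helper32.OR.binary_limits n hn φ ((twoVar_iff φ).1 hφ),
    fun n hn => ?_,
    fun m hm φ hφ => Pool.Agent.Helper32.OR.pairs_iff
      (Pool.Agent.Helper32.OR.pairs_free m hm) (Pool.Agent.Helper32.OR.pairs_free 2 le_rfl) φ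
      ((twoVar_iff φ).1 hφ)⟩
  exact Pool.Agent.Helper32.OR.aas_mono (Pool.Agent.Helper32.OR.aas_pairs n hn)
    (fun _ h => h.exists_equiv (Pool.Agent.Helper32.OR.pairs_free 2 le_rfl))

end Pool.Agent.Results.MP_d4e3d0_lc.BinaryFragment
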