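import Pool.Agent.Helper32.OR.Rk7

/-!
Random one-relator groups and the first-order sentences of quantifier rank at most three
(MP_d4e3d0_lc).
-/

namespace Pool.Agent.Results.MP_d4e3d0_lc.RankThree

open FirstOrder Filter Topology
open Pool.Agent.Helper32.OR (grpLang)

/-- The quantifier rank, by recursion on the formula: `0` for `⊥`, for equations and for relations,
the maximum of the two ranks for an implication, one more for `∀`. -/
noncomputable def qr {α : Type} {k : ℕ} (φ : grpLang.BoundedFormula α k) : ℕ :=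
  φ.rec (motive := fun _ _ => ℕ) 0 (fun _ _ => 0) (fun _ _ => 0) (fun _ _ m m' => max m m')
    (fun _ m => m + 1)

/-- The one-relator group with relator `r`. -/
abbrev OneRel {n : ℕ} (r : FreeGroup (Fin n)) : Type :=
  PresentedGroup ({r} : Set (FreeGroup (Fin n)))

/-- `P r` holds asymptotically almost surely, where `r` runs through the reduced words of length at
most `t` in `n` letters, each counted once. -/
def AAS (n : ℕ) (P : FreeGroup (Fin n) → Prop) : Prop :=
  Tendsto (fun t : ℕ => (Set.ncard {r : FreeGroup (Fin n) | r.norm ≤ t ∧ P r} : ℝ) /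
    (Set.ncard {r : FreeGroup (Fin n) | r.norm ≤ t} : ℝ)) atTop (𝓝 1)

/-- The proportion of the reduced relators of length at most `t` for which the group satisfies
`φ`. -/
noncomputable def prob (n t : ℕ) (φ : grpLang.Sentence) : ℝ :=
  (Set.ncard {r : FreeGroup (Fin n) | r.norm ≤ t ∧ OneRel r ⊨ φ} : ℝ) /
    (Set.ncard {r : FreeGroup (Fin n) | r.norm ≤ t} : ℝ)

theorem qr_eq {α : Type} {k : ℕ} (φ : grpLang.BoundedFormula α k) :
    qr φ = Pool.Agent.Helper32.OR.qr φ := by
  induction φ with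
  | falsum => rfl
  | equal t₁ t₂ => rfl
  | rel R ts => rfl
  | imp φ ψ h1 h2 =>
    show max (qr φ) (qr ψ) = max (Pool.Agent.Helper32.OR.qr φ) (Pool.Agent.Helper32.OR.qr ψ)
    rw [h1, h2]
  | all φ h =>
    show qr φ + 1 = Pool.Agent.Helper32.OR.qr φ + 1
    rw [h]

/-- (1) For `n ≥ 5`, a.a.s. the one-relator group satisfies the same sentences of quantifier rank
at most three as `F_m`, simultaneously for all these sentences and all `m ≥ 3`. (2) The proportions
tend to `1` or `0`. (3) The choice of the rank `m ≥ 3` of the free group does not matter. -/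
theorem result :
    (∀ n : ℕ, 5 ≤ n → AAS n (fun r => ∀ m : ℕ, 3 ≤ m → ∀ φ : grpLang.Sentence, qr φ ≤ 3 →
      (OneRel r ⊨ φ ↔ FreeGroup (Fin m) ⊨ φ))) ∧
    (∀ n : ℕ, 5 ≤ n → ∀ m : ℕ, 3 ≤ m → ∀ φ : grpLang.Sentence, qr φ ≤ 3 →
      (FreeGroup (Fin m) ⊨ φ → Tendsto (fun t => prob n t φ) atTop (𝓝 1)) ∧
      (¬ (FreeGroup (Fin m) ⊨ φ) → Tendsto (fun t => prob n t φ) atTop (𝓝 0))) ∧
    (∀ m m' : ℕ, 3 ≤ m → 3 ≤ m' → ∀ φ : grpLang.Sentence, qr φ ≤ 3 →
      (FreeGroup (Fin m) ⊨ φ ↔ FreeGroup (Fin m') ⊨ φ)) :=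
  ⟨fun n hn => Pool.Agent.Helper32.OR.aas_mono (Pool.Agent.Helper32.OR.rank_three n hn)
      (fun _ hr m hm φ hφ => hr m hm φ (by rw [← qr_eq]; exact hφ)),
    fun n hn m hm φ hφ => Pool.Agent.Helper32.OR.rank_three_limits n hn m hm φ
      (by rw [← qr_eq]; exact hφ),
    fun m m' hm hm' φ hφ => Pool.Agent.Helper32.OR.rank_three_iff
      (Pool.Agent.Helper32.OR.r3_freeGroup m hm) (Pool.Agent.Helper32.OR.r3_freeGroup m' hm') φ
      (by rw [← qr_eq]; exact hφ)⟩

end Pool.Agent.Results.MP_d4e3d0_lc.RankThree
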