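import Pool.Agent.Helper32.OR2.Fin2

/-!
Random one-relator groups with two generators and the first-order sentences whose atomic
subformulas contain at most two variables (MP_d4e3d0_lc).
-/

namespace Pool.Agent.Results.MP_d4e3d0_lc.TwoGenerators

open FirstOrder Filter Topology
open Pool.Agent.Helper32.OR (grpLang)

/-- All equations of the formula contain at most two variables (defined by recursion on the
formula). -/
def TwoVar {k : ℕ} (φ : grpLang.BoundedFormula Empty k) : Prop :=
  φ.rec (motive := fun _ _ => Prop) True (fun t₁ t₂ => (t₁.varFinset ∪ t₂.varFinset).card ≤ 2)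
    (fun _ _ => True) (fun _ _ p q => p ∧ q) (fun _ p => p)

/-- The length of a term: the number of variables, counted with multiplicity. -/
noncomputable def tlen {β : Type} (t : grpLang.Term β) : ℕ :=
  t.rec (motive := fun _ => ℕ) (fun _ => 1) (fun _ _ m => ∑ i, m i)

/-- In all equations of the formula the total length of the two terms is at most `ℓ`. -/
def Short (ℓ : ℕ) {k : ℕ} (φ : grpLang.BoundedFormula Empty k) : Prop :=
  φ.rec (motive := fun _ _ => Prop) True (fun t₁ t₂ => tlen t₁ + tlen t₂ ≤ ℓ)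
    (fun _ _ => True) (fun _ _ p q => p ∧ q) (fun _ p => p)

/-- The one-relator group with relator `r`. -/
abbrev OneRel {n : ℕ} (r : FreeGroup (Fin n)) : Type :=
  PresentedGroup ({r} : Set (FreeGroup (Fin n)))

/-- `P r` holds asymptotically almost surely, where `r` runs through the reduced words of length at
most `t` in `n` letters, each counted once. -/
def AAS (n : ℕ) (P : FreeGroup (Fin n) → Prop) : Prop :=
  Tendsto (fun t : ℕ => (Set.ncard {r : FreeGroup (Fin n) | r.norm ≤ t ∧ P r} : ℝ) /
    (Set.ncard {r : FreeGroup (Fin n) | r.norm ≤ t} : ℝ)) atTop (𝓝 1)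

/-- The proportion of the reduced relators of length at most `t` for which the group satisfies
`φ`. -/
noncomputable def prob (n t : ℕ) (φ : grpLang.Sentence) : ℝ :=
  (Set.ncard {r : FreeGroup (Fin n) | r.norm ≤ t ∧ OneRel r ⊨ φ} : ℝ) /
    (Set.ncard {r : FreeGroup (Fin n) | r.norm ≤ t} : ℝ)

theorem twoVar_iff {k : ℕ} (φ : grpLang.BoundedFormula Empty k) :
    TwoVar φ ↔ Pool.Agent.Helper32.OR.TwoVar φ := by
  induction φ with
  | falsum => exact Iff.rfl
  | equal t₁ t₂ => exact Iff.rfl
  | rel R ts => exact Iff.rfl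
  | imp φ ψ h1 h2 => exact and_congr h1 h2
  | all φ h => exact h

theorem tlen_eq {β : Type} (t : grpLang.Term β) : tlen t = Pool.Agent.Helper32.OR2.tlen t := by
  induction t with
  | var _ => rfl
  | func f ts ih => exact Finset.sum_congr rfl fun i _ => ih i

theorem short_iff (ℓ : ℕ) {k : ℕ} (φ : grpLang.BoundedFormula Empty k) :
    Short ℓ φ ↔ Pool.Agent.Helper32.OR2.Short ℓ φ := by
  induction φ with
  | falsum => exact Iff.rfl
  | equal t₁ t₂ =>
    show tlen t₁ + tlen t₂ ≤ ℓ ↔
      Pool.Agent.Helper32.OR2.tlen t₁ + Pool.Agent.Helper32.OR2.tlen t₂ ≤ ℓ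
    rw [tlen_eq, tlen_eq]
  | rel R ts => exact Iff.rfl
  | imp φ ψ h1 h2 => exact and_congr h1 h2
  | all φ h => exact h

/-- (1) For `n = 2` and each sentence of the fragment the proportions tend to `1` or `0`.
(2) For each `ℓ`, a.a.s. the one-relator group satisfies the same sentences of the fragment with
equations of length at most `ℓ` as `F₂`, simultaneously for all these sentences. (3) For each `ℓ`,
a.a.s. there is a bijection of the group with `F₂` that preserves all relations in two variables of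
length at most `ℓ`. -/
theorem result :
    (∀ φ : grpLang.Sentence, TwoVar φ →
      (FreeGroup (Fin 2) ⊨ φ → Tendsto (fun t => prob 2 t φ) atTop (𝓝 1)) ∧
      (¬ (FreeGroup (Fin 2) ⊨ φ) → Tendsto (fun t => prob 2 t φ) atTop (𝓝 0))) ∧
    (∀ ℓ : ℕ, AAS 2 (fun r => ∀ φ : grpLang.Sentence, TwoVar φ → Short ℓ φ →
      (OneRel r ⊨ φ ↔ FreeGroup (Fin 2) ⊨ φ))) ∧
    (∀ ℓ : ℕ, AAS 2 (fun r => ∃ e : OneRel r ≃ FreeGroup (Fin 2),
      ∀ (a b : OneRel r) (w : FreeGroup (Fin 2)), w.norm ≤ ℓ →
        (FreeGroup.lift ![a, b] w = 1 ↔ FreeGroup.lift ![e a, e b] w = 1))) :=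
  ⟨fun φ hφ => Pool.Agent.Helper32.OR2.two_generators φ ((twoVar_iff φ).1 hφ),
    fun ℓ => Pool.Agent.Helper32.OR.aas_mono (Pool.Agent.Helper32.OR2.aas_short ℓ)
      (fun _ h φ hφ hs => h φ ((twoVar_iff φ).1 hφ) ((short_iff ℓ φ).1 hs)),
    fun ℓ => Pool.Agent.Helper32.OR2.aas_equiv ℓ⟩

end Pool.Agent.Results.MP_d4e3d0_lc.TwoGenerators
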